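import Pool.Agent.NH16.AS.All
import Pool.Agent.NH16.AS.Pw

/-!
# `T(a, b, c) < 0` for the abc-triples with a square or a powerful member, outside sparse sets of members

The critical case for counting: the radical of a square `c` is at most `√c`, so violations of Q1 need
`rad(a) rad(b) ≤ √c`, and there are about `√X` such pairs, as many as squares `c ≤ X`. We save a power: for all but
`N ^ (1 - 1/400)` of the `n ≤ N` all the abc-triples with a member `k n²`, `k ≤ n ^ (1/400)`, and `c ≤ n ^ (2 + 1/400)`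
satisfy `rad(abc) > c ^ (1 + 1/400)`; the same holds for all but `X ^ (1/2 - 1/10000)` of the powerful members `m ≤ X`.
-/

set_option autoImplicit false

namespace Pool.Agent.Results.MP_4ab349_nt.AlmostAllPowerful

open Finset

/-- the product of the primes dividing `n` -/
def rad (n : ℕ) : ℕ := ∏ p ∈ n.primeFactors, p

/-- `T(a, b, c) = log (c / rad(abc)) / √(log c)` -/
noncomputable def T (a b c : ℕ) : ℝ :=
  Real.log ((c : ℝ) / (rad (a * b * c) : ℝ)) / Real.sqrt (Real.log c)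

/-- `rad(abc) > c ^ (1 + δ)`, that is `T(a, b, c) < - δ √(log c)`, for `c = a + b` -/
def Big (δ : ℝ) (a b : ℕ) : Prop :=
  ((a + b : ℕ) : ℝ) ^ (1 + δ) < (rad (a * b * (a + b)) : ℝ) ∧
    T a b (a + b) < - δ * Real.sqrt (Real.log ((a + b : ℕ) : ℝ))

/-- every abc-triple `(a, b, a + b)` with a member `k n²`, `1 ≤ k ≤ n ^ (1/400)`, and `a + b ≤ n ^ (2 + 1/400)` has
`rad(abc) > c ^ (1 + 1/400)` -/
def Good (n : ℕ) : Prop :=
  ∀ k a b : ℕ, 1 ≤ k → (k : ℝ) ≤ (n : ℝ) ^ (1 / 400 : ℝ) → 0 < a → 0 < b → Nat.Coprime a b →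
    (a = k * n ^ 2 ∨ b = k * n ^ 2 ∨ a + b = k * n ^ 2) → ((a + b : ℕ) : ℝ) ≤ (n : ℝ) ^ (2 + 1 / 400 : ℝ) →
      Big (1 / 400) a b

/-- powerful (squarefull) numbers -/
def Powerful (m : ℕ) : Prop := 1 ≤ m ∧ ∀ p : ℕ, p.Prime → p ∣ m → p ^ 2 ∣ m

/-- every abc-triple `(a, b, a + b)` with the member `m` and `a + b ≤ m ^ (1 + 1/10000)` has
`rad(abc) > c ^ (1 + 1/10000)` -/
def GoodMember (m : ℕ) : Prop :=
  ∀ a b : ℕ, 0 < a → 0 < b → Nat.Coprime a b → (a = m ∨ b = m ∨ a + b = m) →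
    ((a + b : ℕ) : ℝ) ≤ (m : ℝ) ^ (1 + 1 / 10000 : ℝ) → Big (1 / 10000) a b

lemma rad_pos (n : ℕ) : 0 < rad n :=
  Finset.prod_pos fun _ hp => (Nat.prime_of_mem_primeFactors hp).pos

lemma big_of (δ : ℝ) (a b : ℕ) (ha : 0 < a) (hb : 0 < b)
    (h : ((a + b : ℕ) : ℝ) ^ (1 + δ) < (rad (a * b * (a + b)) : ℝ)) : Big δ a b := by
  refine ⟨h, ?_⟩
  have hc : (1 : ℝ) < ((a + b : ℕ) : ℝ) := by exact_mod_cast (by omega : 1 < a + b)
  have hc0 : (0 : ℝ) < ((a + b : ℕ) : ℝ) := by linarith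
  have hl : 0 < Real.log ((a + b : ℕ) : ℝ) := Real.log_pos hc
  have hs : 0 < Real.sqrt (Real.log ((a + b : ℕ) : ℝ)) := Real.sqrt_pos.mpr hl
  have hr : (0 : ℝ) < (rad (a * b * (a + b)) : ℝ) := by exact_mod_cast rad_pos _
  have h1 := Real.log_lt_log (by positivity) h
  rw [Real.log_rpow hc0] at h1
  unfold T
  rw [Real.log_div hc0.ne' hr.ne', div_lt_iff₀ hs]
  have hss : Real.sqrt (Real.log ((a + b : ℕ) : ℝ)) * Real.sqrt (Real.log ((a + b : ℕ) : ℝ)) =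
      Real.log ((a + b : ℕ) : ℝ) := Real.mul_self_sqrt hl.le
  have h2 : -δ * Real.sqrt (Real.log ((a + b : ℕ) : ℝ)) * Real.sqrt (Real.log ((a + b : ℕ) : ℝ)) =
      -δ * Real.log ((a + b : ℕ) : ℝ) := by
    rw [mul_assoc, hss]
  rw [h2]
  linarith

open Classical in
/-- **Theorem.** For all large `N` all but at most `N ^ (1 - 1/400)` of the `n ≤ N` are `Good`, and for all large `X`
all but at most `X ^ (1/2 - 1/10000)` of the powerful numbers `m ≤ X` are `GoodMember`. -/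
theorem result :
    (∃ N₀ : ℕ, ∀ N : ℕ, N₀ ≤ N →
      (((Icc 1 N).filter (fun n : ℕ => ¬ Good n)).card : ℝ) ≤ (N : ℝ) ^ (1 - 1 / 400 : ℝ)) ∧
    (∃ X₀ : ℕ, ∀ X : ℕ, X₀ ≤ X →
      (((Icc 1 X).filter (fun m : ℕ => Powerful m ∧ ¬ GoodMember m)).card : ℝ) ≤
        (X : ℝ) ^ (1 / 2 - 1 / 10000 : ℝ)) := by
  constructor
  · obtain ⟨N₀, h⟩ := Pool.Agent.NH16.AS.squares
    refine ⟨N₀, fun N hN => le_trans ?_ (h N hN)⟩
    have hsub : (Icc 1 N).filter (fun n : ℕ => ¬ Good n) ⊆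
        (Icc 1 N).filter (fun n : ℕ => ¬ Pool.Agent.NH16.AS.Good (1 / 400) n) := by
      intro n hn
      rw [mem_filter] at hn ⊢
      refine ⟨hn.1, fun hg => hn.2 ?_⟩
      intro k a b hk hkn ha hb hab hm hc
      exact big_of _ a b ha hb (hg k a b hk hkn ha hb hab hm hc)
    exact_mod_cast Finset.card_le_card hsub
  · obtain ⟨X₀, h⟩ := Pool.Agent.NH16.AS.powerfulNumbers Pool.Agent.NH16.AS.squares
    refine ⟨X₀, fun X hX => le_trans ?_ (h X hX)⟩
    have hsub : (Icc 1 X).filter (fun m : ℕ => Powerful m ∧ ¬ GoodMember m) ⊆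
        (Icc 1 X).filter (fun m : ℕ => Pool.Agent.NH16.AS.Powerful m ∧ ¬ Pool.Agent.NH16.AS.GoodM (1 / 10000) m) := by
      intro m hm
      rw [mem_filter] at hm ⊢
      refine ⟨hm.1, hm.2.1, fun hg => hm.2.2 ?_⟩
      intro a b ha hb hab hmem hc
      exact big_of _ a b ha hb (hg a b ha hb hab hmem hc)
    exact_mod_cast Finset.card_le_card hsub

end Pool.Agent.Results.MP_4ab349_nt.AlmostAllPowerful
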