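import Pool.Agent.NH51.BF.Hts2

/-!
# The families of abc-triples given by identities between split forms, ordered by the radical

An identity `F₀ + F₁ = F₂` between pairwise coprime binary forms of degree `d` with integer
coefficients, which are products of linear factors, for instance `4 x y + (x - y) ^ 2 = (x + y) ^ 2`,
gives an abc-triple for every pair of coprime integers `x`, `y`. Let `D` linear forms occur. The
points, of whatever height, are ordered by the radical of their triple. The number of the points with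
`rad (abc) ≤ X` is between `c₀ X ^ (2 / D)` and `C X ^ (2 / D)`, and all but `O (X ^ (2 / D - ν))` of
them satisfy the inequality of the question, and even `T < -(D / d - 1 - δ) √(log c)`.
-/

set_option autoImplicit false

namespace Pool.Agent.Results.MP_4ab349_nt.FamiliesAllHeights

open Pool.Agent.NH51.BF

/-- the product of the distinct primes dividing `n` -/
def rad (n : ℕ) : ℕ := ∏ p ∈ n.primeFactors, p

/-- `T(a, b, c) = log (c / rad(abc)) / √(log c)` -/
noncomputable def T (a b c : ℕ) : ℝ :=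
  Real.log ((c : ℝ) / (rad (a * b * c) : ℝ)) / Real.sqrt (Real.log c)

/-- The pairs of coprime integers `(x, y)`, of whatever size, such that the abc-triple `(a, b, c)` of
the identity `S` at `(x, y)` (the absolute values of the three forms, without their greatest common
divisor, in the order such that `a + b = c`) satisfies `rad (abc) ≤ X` and has the property `P`. -/
def Points {D : ℕ} (S : Forms D) (P : ℕ → ℕ → ℕ → Prop) (X : ℝ) : Set (ℤ × ℤ) :=
  {z | IsCoprime z.1 z.2 ∧ ∃ a b c : ℕ, 0 < a ∧ 0 < b ∧ Nat.Coprime a b ∧ a + b = c ∧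
    S.Member z.1 z.2 a b c ∧ (rad (a * b * c) : ℝ) ≤ X ∧ P a b c}

lemma points_eq {D : ℕ} (S : Forms D) (P : ℕ → ℕ → ℕ → Prop) (X : ℝ) :
    HPts S P X = Points S P X := rfl

lemma rad_pos (n : ℕ) : 0 < rad n :=
  Finset.prod_pos fun _ hp => (Nat.prime_of_mem_primeFactors hp).pos

/-- a lower bound for `T` is an upper bound for the radical -/
lemma rad_le_of_T {a b c : ℕ} (ha : 0 < a) (hb : 0 < b) (hc : a + b = c) {η : ℝ}
    (h : -η * Real.sqrt (Real.log (c : ℝ)) ≤ T a b c) :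
    (rad (a * b * c) : ℝ) ≤ (c : ℝ) ^ (1 + η) := by
  have hc1 : (1 : ℝ) < (c : ℝ) := by exact_mod_cast (by omega : 1 < c)
  have hc0 : (0 : ℝ) < (c : ℝ) := by linarith
  have hl : 0 < Real.log (c : ℝ) := Real.log_pos hc1
  have hs : 0 < Real.sqrt (Real.log (c : ℝ)) := Real.sqrt_pos.mpr hl
  have hss : Real.sqrt (Real.log (c : ℝ)) * Real.sqrt (Real.log (c : ℝ)) = Real.log (c : ℝ) :=
    Real.mul_self_sqrt hl.le
  have hr : (0 : ℝ) < (rad (a * b * c) : ℝ) := by exact_mod_cast rad_pos _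
  unfold T at h
  rw [le_div_iff₀ hs, mul_assoc, hss, Real.log_div hc0.ne' hr.ne'] at h
  rw [← Real.log_le_log_iff hr (by positivity), Real.log_rpow hc0]
  linarith

/-- a violation of the inequality of the question has `T ≥ 0` -/
lemma T_nonneg {a b c : ℕ} (ha : 0 < a) (hb : 0 < b) (hc : a + b = c)
    (h : (rad (a * b * c) : ℝ) ≤ (c : ℝ) ^ (1 - 1 / Real.sqrt (Real.log (c : ℝ)))) :
    0 ≤ T a b c := by
  have hc1 : (1 : ℝ) < (c : ℝ) := by exact_mod_cast (by omega : 1 < c)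
  have hr : (0 : ℝ) < (rad (a * b * c) : ℝ) := by exact_mod_cast rad_pos _
  have h1 : (rad (a * b * c) : ℝ) ≤ (c : ℝ) := by
    refine h.trans ?_
    calc (c : ℝ) ^ (1 - 1 / Real.sqrt (Real.log (c : ℝ))) ≤ (c : ℝ) ^ (1 : ℝ) := by
          apply Real.rpow_le_rpow_of_exponent_le hc1.le
          have : 0 ≤ 1 / Real.sqrt (Real.log (c : ℝ)) := by positivity
          linarith
      _ = _ := Real.rpow_one _
  unfold T
  exact div_nonneg (Real.log_nonneg (by rwa [one_le_div hr])) (Real.sqrt_nonneg _)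

theorem part_two {D d : ℕ} (hd : 1 ≤ d) {S : Forms D} (h : S.IsIdentity d) (hD : d + 2 ≤ D)
    (δ : ℝ) (hδ : 0 < δ) : ∃ ν C : ℝ, 0 < ν ∧ 0 < C ∧ ∀ X : ℝ, 1 ≤ X →
      ((Points S (fun a b c => -((D : ℝ) / d - 1 - δ) * Real.sqrt (Real.log (c : ℝ)) ≤
        T a b c) X).ncard : ℝ) ≤ C * X ^ (2 / (D : ℝ) - ν) := by
  have hd' : (0 : ℝ) < d := by exact_mod_cast hd
  have hD' : (0 : ℝ) < D := by exact_mod_cast (by omega : 0 < D)
  have hDd : 0 < (D : ℝ) / d := by positivity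
  have hδ1 : 0 < min δ ((D : ℝ) / d / 2) := lt_min hδ (by positivity)
  refine few_upper h hd (by omega) trR_finite vrR_count hδ1 (min_le_right _ _) ?_
  intro a b c ha hb hc hP
  have h1 := rad_le_of_T ha hb hc hP
  have hc1 : (1 : ℝ) ≤ (c : ℝ) := by exact_mod_cast (by omega : 1 ≤ c)
  refine h1.trans (Real.rpow_le_rpow_of_exponent_le hc1 ?_)
  have : min δ ((D : ℝ) / d / 2) ≤ δ := min_le_left _ _
  linarith

/-- **Families of abc-triples, ordered by the radical.** Let `d ≥ 1` and let `S` be an identity of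
degree `d` with `D` linear forms, for instance `4 x y + (x - y) ^ 2 = (x + y) ^ 2` with `d = 2`,
`D = 4`.
(1) The number of the points, of all heights, whose abc-triple has `rad (abc) ≤ X` is finite, at most
`C X ^ (2 / D)` for `X ≥ 1` and at least `c₀ X ^ (2 / D)`, `c₀ > 0`, if `X` is large.
(2) For every `δ > 0` at most `C X ^ (2 / D - ν)` of them, `ν > 0`, have
`T ≥ -(D / d - 1 - δ) √(log c)`; here `D / d - 1 ≥ 2 / d`.
(3) At most `C X ^ (2 / D - ν)` of them, `ν > 0`, violate `rad (abc) > c ^ (1 - 1 / √(log c))`. -/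
theorem result : ∀ (D d : ℕ) (S : Forms D), 1 ≤ d → S.IsIdentity d →
    ((∀ (P : ℕ → ℕ → ℕ → Prop) (X : ℝ), (Points S P X).Finite) ∧
      (∃ C : ℝ, 0 < C ∧ ∀ X : ℝ, 1 ≤ X →
        ((Points S (fun _ _ _ => True) X).ncard : ℝ) ≤ C * X ^ (2 / (D : ℝ))) ∧
      ∃ c₀ X₀ : ℝ, 0 < c₀ ∧ ∀ X : ℝ, X₀ ≤ X →
        c₀ * X ^ (2 / (D : ℝ)) ≤ ((Points S (fun _ _ _ => True) X).ncard : ℝ)) ∧
    (2 / (d : ℝ) ≤ (D : ℝ) / d - 1 ∧ ∀ δ : ℝ, 0 < δ → ∃ ν C : ℝ, 0 < ν ∧ 0 < C ∧ ∀ X : ℝ, 1 ≤ X →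
      ((Points S (fun a b c => -((D : ℝ) / d - 1 - δ) * Real.sqrt (Real.log (c : ℝ)) ≤
        T a b c) X).ncard : ℝ) ≤ C * X ^ (2 / (D : ℝ) - ν)) ∧
    ∃ ν C : ℝ, 0 < ν ∧ 0 < C ∧ ∀ X : ℝ, 1 ≤ X →
      ((Points S (fun a b c => (rad (a * b * c) : ℝ) ≤
        (c : ℝ) ^ (1 - 1 / Real.sqrt (Real.log (c : ℝ)))) X).ncard : ℝ) ≤
        C * X ^ (2 / (D : ℝ) - ν) := by
  intro D d S hd h
  have hD := mason hd h
  have hd' : (0 : ℝ) < d := by exact_mod_cast hd
  have hD' : (d : ℝ) + 2 ≤ D := by exact_mod_cast hD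
  obtain ⟨C₁, hC₁, hcnt⟩ := trR_count
  have hfin : ∀ (P : ℕ → ℕ → ℕ → Prop) (X : ℝ), (Points S P X).Finite := fun P X =>
    (all_upper h (by omega) P trR_finite hC₁.le hcnt).1 X
  have hkey : 2 / (d : ℝ) ≤ (D : ℝ) / d - 1 := by
    rw [le_sub_iff_add_le, div_add_one hd'.ne', div_le_div_iff_of_pos_right hd']
    linarith
  refine ⟨⟨hfin, (all_upper h (by omega) _ trR_finite hC₁.le hcnt).2,
    all_lower h (by omega) (hfin _)⟩, ⟨hkey, fun δ hδ => part_two hd h hD δ hδ⟩, ?_⟩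
  have hδ : 0 < (D : ℝ) / d - 1 := lt_of_lt_of_le (by positivity) hkey
  obtain ⟨ν, C, hν, hC, h1⟩ := part_two hd h hD _ hδ
  refine ⟨ν, C, hν, hC, fun X hX => le_trans ?_ (h1 X hX)⟩
  have hsub : Points S (fun a b c => (rad (a * b * c) : ℝ) ≤
      (c : ℝ) ^ (1 - 1 / Real.sqrt (Real.log (c : ℝ)))) X ⊆
      Points S (fun a b c => -((D : ℝ) / d - 1 - ((D : ℝ) / d - 1)) *
        Real.sqrt (Real.log (c : ℝ)) ≤ T a b c) X := by
    rintro z ⟨g1, a, b, c, g2, g3, g4, g5, g6, g7, g8⟩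
    refine ⟨g1, a, b, c, g2, g3, g4, g5, g6, g7, ?_⟩
    change -((D : ℝ) / d - 1 - ((D : ℝ) / d - 1)) * Real.sqrt (Real.log (c : ℝ)) ≤ T a b c
    rw [sub_self, neg_zero, zero_mul]
    exact T_nonneg g2 g3 g5 g8
  exact_mod_cast Set.ncard_le_ncard hsub (hfin _ X)

end Pool.Agent.Results.MP_4ab349_nt.FamiliesAllHeights
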