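import Pool.Agent.NH51.PF.Ex
import Pool.Agent.NH51.PF.Low
import Pool.Agent.NH51.BF.Fin

/-!
# The inequality `T < 1` in families of abc-triples with `d + 1` linear factors

Let `F₀ + F₁ = F₂` be an identity between pairwise coprime binary forms of degree `d` with integer
coefficients, such that at least `d + 1` (and at least three) pairwise not proportional linear forms
divide one of the three forms; for instance `F₀ = x (x - y) ... (x - (d - 1) y)`, `F₁ = y ^ d`, `F₂ = F₀ + F₁`.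
The forms need not split into linear factors. Then the abc-triples of nearly all the points `(x, y)`
satisfy the inequality, with a power saving.
-/

set_option autoImplicit false

namespace Pool.Agent.Results.MP_4ab349_nt.PartlySplitFamilies

open Pool.Agent.NH51.PF

/-- the product of the distinct primes dividing `n` -/
def rad (n : ℕ) : ℕ := ∏ p ∈ n.primeFactors, p

/-- `T(a, b, c) = log (c / rad(abc)) / √(log c)` -/
noncomputable def T (a b c : ℕ) : ℝ :=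
  Real.log ((c : ℝ) / (rad (a * b * c) : ℝ)) / Real.sqrt (Real.log c)

/-- The pairs of coprime integers `(x, y)`, `|x|, |y| ≤ N`, such that the abc-triple `(a, b, c)` of the
identity `S` at `(x, y)` (the absolute values of the three forms, without their greatest common divisor,
in the order such that `a + b = c`) has the property `P`. -/
def Box {D : ℕ} (S : Fam D) (d : ℕ) (P : ℕ → ℕ → ℕ → Prop) (N : ℕ) : Set (ℤ × ℤ) :=
  {z | IsCoprime z.1 z.2 ∧ z.1.natAbs ≤ N ∧ z.2.natAbs ≤ N ∧ ∃ a b c : ℕ, 0 < a ∧ 0 < b ∧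
    Nat.Coprime a b ∧ a + b = c ∧ S.Member d z.1 z.2 a b c ∧ P a b c}

/-- the exponent: continuous and increasing, less than `2` for `l < 3` -/
noncomputable def f (l : ℝ) : ℝ :=
  if l ≤ 2 / 3 then 4 * l / 7
  else if l ≤ 1 then (13 * l + 2) / 28
  else if l ≤ 3 / 2 then 5 * (10 * l - 1) / 84
  else if l ≤ 16 / 9 then (9 * l - 1) / 15
  else if l ≤ 2 then 1
  else l - 1

lemma f_eq (l : ℝ) : Pool.Agent.W221.ABC7.Fx l = f l := rfl

lemma f_lt_two {l : ℝ} (h : l < 3) : f l < 2 := Pool.Agent.NH51.BF.Fx_lt_two h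

lemma rad_pos (n : ℕ) : 0 < rad n :=
  Finset.prod_pos fun _ hp => (Nat.prime_of_mem_primeFactors hp).pos

/-- the inequalities for `T` and for the radical -/
lemma T_iff {a b c : ℕ} (ha : 0 < a) (hb : 0 < b) (hc : a + b = c) (η K : ℝ) :
    -η * Real.sqrt (Real.log (c : ℝ)) - K / Real.sqrt (Real.log (c : ℝ)) ≤ T a b c ↔
    (rad (a * b * c) : ℝ) ≤ Real.exp K * (c : ℝ) ^ (1 + η) := by
  have hc1 : (1 : ℝ) < (c : ℝ) := by exact_mod_cast (by omega : 1 < c)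
  have hc0 : (0 : ℝ) < (c : ℝ) := by linarith
  have hl : 0 < Real.log (c : ℝ) := Real.log_pos hc1
  have hs : 0 < Real.sqrt (Real.log (c : ℝ)) := Real.sqrt_pos.mpr hl
  have hss : Real.sqrt (Real.log (c : ℝ)) * Real.sqrt (Real.log (c : ℝ)) = Real.log (c : ℝ) :=
    Real.mul_self_sqrt hl.le
  have hr : (0 : ℝ) < (rad (a * b * c) : ℝ) := by exact_mod_cast rad_pos _
  unfold T
  rw [le_div_iff₀ hs, sub_mul, div_mul_cancel₀ _ hs.ne', mul_assoc, hss,
    Real.log_div hc0.ne' hr.ne', ← Real.log_le_log_iff hr (by positivity),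
    Real.log_mul (Real.exp_pos K).ne' (Real.rpow_pos_of_pos hc0 _).ne', Real.log_exp,
    Real.log_rpow hc0]
  constructor <;> intro h <;> linarith

lemma box_sub {D d : ℕ} {S : Fam D} {P : ℕ → ℕ → ℕ → Prop} {E μ : ℝ}
    (h : ∀ a b c : ℕ, 0 < a → 0 < b → a + b = c → P a b c →
      (rad (a * b * c) : ℝ) ≤ E * (c : ℝ) ^ μ) (N : ℕ) : Box S d P N ⊆ Pts S d E μ N := by
  rintro z ⟨h1, h2, h3, a, b, c, h4, h5, -, h6, h7, h8⟩
  exact ⟨h1, h2, h3, a, b, c, h4, h5, h6, h7, h a b c h4 h5 h6 h8⟩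

lemma pts_finite {D d : ℕ} (S : Fam D) (E μ : ℝ) (N : ℕ) : (Pts S d E μ N).Finite := by
  refine Set.Finite.subset (Finset.finite_toSet
    (Finset.Icc (-(N : ℤ)) N ×ˢ Finset.Icc (-(N : ℤ)) N)) ?_
  rintro ⟨x, y⟩ ⟨-, h1, h2, -⟩
  simp only at h1 h2
  rw [Finset.mem_coe, Finset.mem_product, Finset.mem_Icc, Finset.mem_Icc]
  simp only
  omega

theorem part_one {D d : ℕ} (hd : 1 ≤ d) (hD : 3 ≤ D) {S : Fam D} (h : S.IsIdentity d)
    (η K ε : ℝ) (hη : -1 < η) (hε : 0 < ε) : ∃ C : ℝ, ∀ N : ℕ, 1 ≤ N →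
      ((Box S d (fun a b c => -η * Real.sqrt (Real.log (c : ℝ)) -
        K / Real.sqrt (Real.log (c : ℝ)) ≤ T a b c) N).ncard : ℝ) ≤
      C * (N : ℝ) ^ (f (3 * (d : ℝ) * (1 + η) / (D : ℝ)) + ε) := by
  obtain ⟨C, -, hC⟩ := count_pts h hd hD (Real.exp_pos K) (show 0 < 1 + η by linarith) hε
  refine ⟨C, fun N hN => ?_⟩
  have h1 := hC N hN
  rw [show 3 * ((d : ℝ) * (1 + η)) / (D : ℝ) = 3 * (d : ℝ) * (1 + η) / (D : ℝ) by ring] at h1
  refine le_trans ?_ h1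
  exact Nat.cast_le.2 (Set.ncard_le_ncard
    (box_sub (fun a b c ha hb hc hP => (T_iff ha hb hc η K).1 hP) N) (pts_finite _ _ _ _))

theorem part_two {D d : ℕ} (hd : 1 ≤ d) (hD : 3 ≤ D) {S : Fam D} (h : S.IsIdentity d)
    (δ : ℝ) (hδ : 0 < δ) : ∃ ν C : ℝ, 0 < ν ∧ ∀ N : ℕ, 1 ≤ N →
      ((Box S d (fun a b c => -((D : ℝ) / d - 1 - δ) * Real.sqrt (Real.log (c : ℝ)) ≤
        T a b c) N).ncard : ℝ) ≤ C * (N : ℝ) ^ (2 - ν) := by
  have hd' : (0 : ℝ) < d := by exact_mod_cast hd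
  have hD' : (0 : ℝ) < D := by exact_mod_cast (by omega : 0 < D)
  have hDd : 0 < (D : ℝ) / d := by positivity
  set δ' : ℝ := min δ ((D : ℝ) / d / 2) with hδ'
  have h1 : 0 < δ' := lt_min hδ (by positivity)
  have h2 : δ' ≤ δ := min_le_left _ _
  have h3 : δ' ≤ (D : ℝ) / d / 2 := min_le_right _ _
  set η : ℝ := (D : ℝ) / d - 1 - δ' with hη
  have h4 : -1 < η := by rw [hη]; linarith
  have h5 : 3 * (d : ℝ) * (1 + η) / (D : ℝ) < 3 := by
    rw [div_lt_iff₀ hD', hη]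
    have h6 : (d : ℝ) * (1 + ((D : ℝ) / d - 1 - δ')) = D - d * δ' := by field_simp; ring
    calc 3 * (d : ℝ) * (1 + ((D : ℝ) / d - 1 - δ')) =
          3 * ((d : ℝ) * (1 + ((D : ℝ) / d - 1 - δ'))) := by ring
      _ = 3 * (D - d * δ') := by rw [h6]
      _ < 3 * D := by nlinarith
  have h6 : f (3 * (d : ℝ) * (1 + η) / (D : ℝ)) < 2 := f_lt_two h5
  set ν : ℝ := (2 - f (3 * (d : ℝ) * (1 + η) / (D : ℝ))) / 2 with hν
  have h7 : 0 < ν := by rw [hν]; linarith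
  obtain ⟨C, hC⟩ := part_one hd hD h η 0 ν h4 h7
  refine ⟨ν, C, h7, fun N hN => ?_⟩
  have h8 := hC N hN
  rw [show f (3 * (d : ℝ) * (1 + η) / (D : ℝ)) + ν = 2 - ν by rw [hν]; ring] at h8
  refine le_trans ?_ h8
  have h9 : Box S d (fun a b c => -((D : ℝ) / d - 1 - δ) * Real.sqrt (Real.log (c : ℝ)) ≤
      T a b c) N ⊆ Box S d (fun a b c => -η * Real.sqrt (Real.log (c : ℝ)) -
        0 / Real.sqrt (Real.log (c : ℝ)) ≤ T a b c) N := by
    rintro z ⟨g1, g2, g3, a, b, c, g4, g5, g6, g7, g8, g10⟩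
    refine ⟨g1, g2, g3, a, b, c, g4, g5, g6, g7, g8, ?_⟩
    change -((D : ℝ) / d - 1 - δ) * Real.sqrt (Real.log (c : ℝ)) ≤ T a b c at g10
    change -η * Real.sqrt (Real.log (c : ℝ)) - 0 / Real.sqrt (Real.log (c : ℝ)) ≤ T a b c
    rw [zero_div, sub_zero]
    refine le_trans ?_ g10
    have hs : 0 ≤ Real.sqrt (Real.log (c : ℝ)) := Real.sqrt_nonneg _
    have : -η ≤ -((D : ℝ) / d - 1 - δ) := by rw [hη]; linarith
    exact mul_le_mul_of_nonneg_right this hs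
  refine Nat.cast_le.2 (Set.ncard_le_ncard h9 ?_)
  exact (pts_finite (d := d) S (Real.exp 0) (1 + η) N).subset
    (box_sub (fun a b c ha hb hc hP => (T_iff ha hb hc η 0).1 hP) N)

theorem part_three {D d : ℕ} (hd : 1 ≤ d) (hD : 3 ≤ D) {S : Fam D} (h : S.IsIdentity d)
    (ε : ℝ) (hε : 0 < ε) : ∃ C : ℝ, ∀ N : ℕ, 1 ≤ N →
      ((Box S d (fun a b c => (rad (a * b * c) : ℝ) ≤
        (c : ℝ) ^ (1 - 1 / Real.sqrt (Real.log (c : ℝ)))) N).ncard : ℝ) ≤
      C * (N : ℝ) ^ (f (3 * (d : ℝ) / (D : ℝ)) + ε) := by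
  obtain ⟨C, -, hC⟩ := count_pts h hd hD one_pos one_pos hε
  refine ⟨C, fun N hN => ?_⟩
  have h1 := hC N hN
  rw [show 3 * ((d : ℝ) * 1) / (D : ℝ) = 3 * (d : ℝ) / (D : ℝ) by ring] at h1
  refine le_trans ?_ h1
  refine Nat.cast_le.2 (Set.ncard_le_ncard (box_sub ?_ N) (pts_finite _ _ _ _))
  intro a b c ha hb hc hr
  have hc1 : (1 : ℝ) ≤ (c : ℝ) := by exact_mod_cast (by omega : 1 ≤ c)
  refine hr.trans ?_
  rw [one_mul]
  refine Real.rpow_le_rpow_of_exponent_le hc1 ?_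
  have : 0 ≤ 1 / Real.sqrt (Real.log (c : ℝ)) := by positivity
  linarith

lemma box_finite {D d : ℕ} (S : Fam D) (P : ℕ → ℕ → ℕ → Prop) (N : ℕ) : (Box S d P N).Finite := by
  refine Set.Finite.subset (Finset.finite_toSet
    (Finset.Icc (-(N : ℤ)) N ×ˢ Finset.Icc (-(N : ℤ)) N)) ?_
  rintro ⟨x, y⟩ ⟨-, h1, h2, -⟩
  simp only at h1 h2
  rw [Finset.mem_coe, Finset.mem_product, Finset.mem_Icc, Finset.mem_Icc]
  simp only
  omega

/-- the number of the points -/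
theorem part_low {D d : ℕ} (hd : 1 ≤ d) {S : Fam D} (h : S.IsIdentity d) (N : ℕ) :
    (N : ℝ) ^ 2 / 4 - 3 * d * N ≤ ((Box S d (fun _ _ _ => True) N).ncard : ℝ) := by
  classical
  refine (card_good hd h N).trans ?_
  rw [← Set.ncard_coe_finset]
  refine Nat.cast_le.2 (Set.ncard_le_ncard_of_injOn (fun t : ℕ × ℕ => ((t.1 : ℤ), (t.2 : ℤ)))
    ?_ ?_ (box_finite S _ N))
  · intro t ht
    rw [Finset.mem_coe, Finset.mem_filter] at ht
    obtain ⟨ht1, ht2⟩ := ht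
    unfold Pool.Agent.NH51.BF.Cop at ht1
    rw [Finset.mem_filter, Finset.mem_product, Finset.mem_Icc, Finset.mem_Icc] at ht1
    obtain ⟨⟨⟨-, q1⟩, -, q2⟩, q3⟩ := ht1
    obtain ⟨a, b, c, g, σ, ha, hb, hco, hc, hg, e0, e1, e2⟩ :=
      Pool.Agent.NH51.BF.exists_member (F := fun j => form d (S.f j) (t.1 : ℤ) (t.2 : ℤ))
        (ht2 0) (ht2 1) (ht2 2) (by rw [form_add, h.sum])
    exact ⟨Nat.isCoprime_iff_coprime.2 q3, by simpa using q1, by simpa using q2, a, b, c, ha, hb,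
      hco, hc, ⟨g, σ, hg, e0, e1, e2⟩, trivial⟩
  · intro t _ t' _ h1
    simp only [Prod.mk.injEq, Nat.cast_inj] at h1
    exact Prod.ext h1.1 h1.2

/-- **Families of abc-triples with many linear factors.** For every `d ≥ 1` there is an identity of the
degree `d` with `d + 1` linear forms. For all `d ≥ 1`, `D ≥ 3`, `D ≥ d + 1` and all identities `S` of degree
`d` with `D` linear forms
(0) at least `N ^ 2 / 4 - 3 d N` coprime points with `|x|, |y| ≤ N` have an abc-triple;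
(1) for all `η > -1`, `K` and `ε > 0` at most `C N ^ (f (3 d (1 + η) / D) + ε)` coprime points with
`|x|, |y| ≤ N` have an abc-triple with `T ≥ -η √(log c) - K / √(log c)`;
(2) for every `δ > 0` at most `C N ^ (2 - ν)` of them, `ν > 0`, have an abc-triple with
`T ≥ -(D / d - 1 - δ) √(log c)`;
(3) at most `C N ^ (f (3 d / D) + ε)` of them have an abc-triple which violates
`rad (abc) > c ^ (1 - 1 / √(log c))`, and `f (3 d / D) < 2`. -/
theorem result :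
    (∀ d : ℕ, 1 ≤ d → ∃ S : Fam (d + 1), S.IsIdentity d) ∧
    ∀ (D d : ℕ) (S : Fam D), 1 ≤ d → 3 ≤ D → d + 1 ≤ D → S.IsIdentity d →
      (∀ N : ℕ, (N : ℝ) ^ 2 / 4 - 3 * d * N ≤ ((Box S d (fun _ _ _ => True) N).ncard : ℝ)) ∧
      (∀ η K ε : ℝ, -1 < η → 0 < ε → ∃ C : ℝ, ∀ N : ℕ, 1 ≤ N →
        ((Box S d (fun a b c => -η * Real.sqrt (Real.log (c : ℝ)) -
          K / Real.sqrt (Real.log (c : ℝ)) ≤ T a b c) N).ncard : ℝ) ≤
        C * (N : ℝ) ^ (f (3 * (d : ℝ) * (1 + η) / (D : ℝ)) + ε)) ∧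
      (∀ δ : ℝ, 0 < δ → ∃ ν C : ℝ, 0 < ν ∧ ∀ N : ℕ, 1 ≤ N →
        ((Box S d (fun a b c => -((D : ℝ) / d - 1 - δ) * Real.sqrt (Real.log (c : ℝ)) ≤
          T a b c) N).ncard : ℝ) ≤ C * (N : ℝ) ^ (2 - ν)) ∧
      f (3 * (d : ℝ) / (D : ℝ)) < 2 ∧
      ∀ ε : ℝ, 0 < ε → ∃ C : ℝ, ∀ N : ℕ, 1 ≤ N →
        ((Box S d (fun a b c => (rad (a * b * c) : ℝ) ≤
          (c : ℝ) ^ (1 - 1 / Real.sqrt (Real.log (c : ℝ)))) N).ncard : ℝ) ≤
        C * (N : ℝ) ^ (f (3 * (d : ℝ) / (D : ℝ)) + ε) := by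
  refine ⟨fun d hd => ⟨_, ex_id hd⟩, fun D d S hd hD hDd h => ?_⟩
  refine ⟨part_low hd h, fun η K ε hη hε => part_one hd hD h η K ε hη hε, fun δ hδ => part_two hd hD h δ hδ,
    f_lt_two ?_, fun ε hε => part_three hd hD h ε hε⟩
  have hD' : (0 : ℝ) < D := by exact_mod_cast (by omega : 0 < D)
  have h1 : (d : ℝ) + 1 ≤ D := by exact_mod_cast hDd
  rw [div_lt_iff₀ hD']
  linarith

end Pool.Agent.Results.MP_4ab349_nt.PartlySplitFamilies
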