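import Pool.Agent.NH51.BF.ByC

/-!
# The inequality `T < 1` in the families of abc-triples given by identities between split forms

An identity `F₀ + F₁ = F₂` between pairwise coprime binary forms of degree `d` with integer
coefficients, which are products of linear factors, for instance `4 x y + (x - y) ^ 2 = (x + y) ^ 2`
or `(x - y) (x + y) ^ 3 + y ^ 3 (2 x + y) = x ^ 3 (x + 2 y)`, gives an abc-triple for every pair of
coprime integers `x`, `y`. If `D` linear forms occur then `D ≥ d + 2`, there are `≫ X ^ (2 / d)` points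
with `c ≤ X`, and `O (X ^ (f (3 d (1 + η) / D) / d + ε))` of them have a triple with
`T ≥ -η √(log c) - K / √(log c)`.
-/

set_option autoImplicit false

namespace Pool.Agent.Results.MP_4ab349_nt.SplitFamilies

open Pool.Agent.NH51.BF

/-- the product of the distinct primes dividing `n` -/
def rad (n : ℕ) : ℕ := ∏ p ∈ n.primeFactors, p

/-- `T(a, b, c) = log (c / rad(abc)) / √(log c)` -/
noncomputable def T (a b c : ℕ) : ℝ :=
  Real.log ((c : ℝ) / (rad (a * b * c) : ℝ)) / Real.sqrt (Real.log c)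

/-- The pairs of coprime integers `(x, y)` such that the abc-triple `(a, b, c)` of the identity `S` at
`(x, y)` (the absolute values of the three forms, without their greatest common divisor, in the order
such that `a + b = c`) satisfies `c ≤ X` and has the property `P`. -/
def Points {D : ℕ} (S : Forms D) (P : ℕ → ℕ → ℕ → Prop) (X : ℝ) : Set (ℤ × ℤ) :=
  {z | IsCoprime z.1 z.2 ∧ ∃ a b c : ℕ, 0 < a ∧ 0 < b ∧ Nat.Coprime a b ∧ a + b = c ∧
    S.Member z.1 z.2 a b c ∧ (c : ℝ) ≤ X ∧ P a b c}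

/-- the exponent: continuous and increasing, less than `2` for `l < 3` -/
noncomputable def f (l : ℝ) : ℝ :=
  if l ≤ 2 / 3 then 4 * l / 7
  else if l ≤ 1 then (13 * l + 2) / 28
  else if l ≤ 3 / 2 then 5 * (10 * l - 1) / 84
  else if l ≤ 16 / 9 then (9 * l - 1) / 15
  else if l ≤ 2 then 1
  else l - 1

/-- the exponent for the question -/
noncomputable def w (d : ℕ) : ℝ :=
  if d = 1 then 15 / 28 else if d = 2 then 5 / 6 else if d = 3 then 1 else 2 - 6 / ((d : ℝ) + 2)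

lemma f_eq (l : ℝ) : Pool.Agent.W221.ABC7.Fx l = f l := rfl

lemma w_eq (d : ℕ) : Pool.Agent.NH51.BF.w d = w d := rfl

lemma points_eq {D : ℕ} (S : Forms D) (P : ℕ → ℕ → ℕ → Prop) (X : ℝ) :
    Pool.Agent.NH51.BF.Points S P X = Points S P X := rfl

lemma f_pos {l : ℝ} (h : 0 < l) : 0 < f l := Pool.Agent.W221.ABC7.Fx_pos l h

lemma rad_pos (n : ℕ) : 0 < rad n :=
  Finset.prod_pos fun _ hp => (Nat.prime_of_mem_primeFactors hp).pos

/-- the inequalities for `T` and for the radical -/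
lemma T_iff {a b c : ℕ} (ha : 0 < a) (hb : 0 < b) (hc : a + b = c) (η K : ℝ) :
    -η * Real.sqrt (Real.log (c : ℝ)) - K / Real.sqrt (Real.log (c : ℝ)) ≤ T a b c ↔
    (rad (a * b * c) : ℝ) ≤ Real.exp K * (c : ℝ) ^ (1 + η) := by
  have hc1 : (1 : ℝ) < (c : ℝ) := by exact_mod_cast (by omega : 1 < c)
  have hc0 : (0 : ℝ) < (c : ℝ) := by linarith
  have hl : 0 < Real.log (c : ℝ) := Real.log_pos hc1
  have hs : 0 < Real.sqrt (Real.log (c : ℝ)) := Real.sqrt_pos.mpr hl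
  have hss : Real.sqrt (Real.log (c : ℝ)) * Real.sqrt (Real.log (c : ℝ)) = Real.log (c : ℝ) :=
    Real.mul_self_sqrt hl.le
  have hr : (0 : ℝ) < (rad (a * b * c) : ℝ) := by exact_mod_cast rad_pos _
  unfold T
  rw [le_div_iff₀ hs, sub_mul, div_mul_cancel₀ _ hs.ne', mul_assoc, hss,
    Real.log_div hc0.ne' hr.ne', ← Real.log_le_log_iff hr (by positivity),
    Real.log_mul (Real.exp_pos K).ne' (Real.rpow_pos_of_pos hc0 _).ne', Real.log_exp,
    Real.log_rpow hc0]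
  constructor <;> intro h <;> linarith

theorem part_two {D d : ℕ} (hd : 1 ≤ d) {S : Forms D} (h : S.IsIdentity d) (hD : d + 2 ≤ D)
    (η K ε : ℝ) (hη : -1 < η) (hε : 0 < ε) : ∃ C : ℝ, ∀ X : ℝ, 1 ≤ X →
      ((Points S (fun a b c => -η * Real.sqrt (Real.log (c : ℝ)) -
        K / Real.sqrt (Real.log (c : ℝ)) ≤ T a b c) X).ncard : ℝ) ≤
      C * X ^ (f (3 * (d : ℝ) * (1 + η) / (D : ℝ)) / d + ε) := by
  have hd' : (0 : ℝ) < d := by exact_mod_cast hd
  have hD' : (0 : ℝ) < D := by exact_mod_cast (by omega : 0 < D)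
  obtain ⟨C, hC0, hC⟩ := count_pts h hd (by omega) (Real.exp_pos K)
    (show 0 < 1 + η by linarith) (show 0 < d * ε by positivity)
  have hl : 0 < 3 * ((d : ℝ) * (1 + η)) / (D : ℝ) := by
    have : 0 < 1 + η := by linarith
    positivity
  have hf : 0 < f (3 * ((d : ℝ) * (1 + η)) / (D : ℝ)) := f_pos hl
  refine ⟨C * (2 * (S.KK d : ℝ) ^ (1 / (d : ℝ))) ^
    (f (3 * ((d : ℝ) * (1 + η)) / (D : ℝ)) + d * ε), fun X hX => ?_⟩
  have h1 := upper h hd (P := fun a b c => -η * Real.sqrt (Real.log (c : ℝ)) -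
        K / Real.sqrt (Real.log (c : ℝ)) ≤ T a b c)
    (fun a b c ha hb hc hP => (T_iff ha hb hc η K).1 hP)
    (θ := f (3 * ((d : ℝ) * (1 + η)) / (D : ℝ)) + d * ε) (by positivity) hC0.le hC X hX
  have e : (f (3 * ((d : ℝ) * (1 + η)) / (D : ℝ)) + d * ε) / (d : ℝ) =
      f (3 * (d : ℝ) * (1 + η) / (D : ℝ)) / d + ε := by
    rw [← mul_assoc]
    field_simp
  rw [e] at h1
  exact h1

theorem part_three {D d : ℕ} (hd : 1 ≤ d) {S : Forms D} (h : S.IsIdentity d) (hD : d + 2 ≤ D)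
    (δ : ℝ) (hδ : 0 < δ) : ∃ ν C : ℝ, 0 < ν ∧ ∀ X : ℝ, 1 ≤ X →
      ((Points S (fun a b c => -((D : ℝ) / d - 1 - δ) * Real.sqrt (Real.log (c : ℝ)) ≤
        T a b c) X).ncard : ℝ) ≤ C * X ^ (2 / (d : ℝ) - ν) := by
  have hd' : (0 : ℝ) < d := by exact_mod_cast hd
  have hD' : (0 : ℝ) < D := by exact_mod_cast (by omega : 0 < D)
  have hDd : 0 < (D : ℝ) / d := by positivity
  set δ' : ℝ := min δ ((D : ℝ) / d / 2) with hδ'
  have h1 : 0 < δ' := lt_min hδ (by positivity)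
  have h2 : δ' ≤ δ := min_le_left _ _
  have h3 : δ' ≤ (D : ℝ) / d / 2 := min_le_right _ _
  set η : ℝ := (D : ℝ) / d - 1 - δ' with hη
  have h4 : -1 < η := by rw [hη]; linarith
  have h5 : 3 * (d : ℝ) * (1 + η) / (D : ℝ) < 3 := by
    rw [div_lt_iff₀ hD', hη]
    have h6 : (d : ℝ) * (1 + ((D : ℝ) / d - 1 - δ')) = D - d * δ' := by field_simp; ring
    calc 3 * (d : ℝ) * (1 + ((D : ℝ) / d - 1 - δ')) =
          3 * ((d : ℝ) * (1 + ((D : ℝ) / d - 1 - δ'))) := by ring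
      _ = 3 * (D - d * δ') := by rw [h6]
      _ < 3 * D := by nlinarith
  have h6 : f (3 * (d : ℝ) * (1 + η) / (D : ℝ)) < 2 := Fx_lt_two h5
  set ν : ℝ := (2 - f (3 * (d : ℝ) * (1 + η) / (D : ℝ))) / (2 * d) with hν
  have h7 : 0 < ν := by rw [hν]; exact div_pos (by linarith) (by positivity)
  obtain ⟨C, hC⟩ := part_two hd h hD η 0 ν h4 h7
  refine ⟨ν, C, h7, fun X hX => ?_⟩
  have h8 := hC X hX
  rw [show f (3 * (d : ℝ) * (1 + η) / (D : ℝ)) / d + ν = 2 / (d : ℝ) - ν by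
    rw [hν]; field_simp; ring] at h8
  refine le_trans ?_ h8
  have h9 : Points S (fun a b c => -((D : ℝ) / d - 1 - δ) * Real.sqrt (Real.log (c : ℝ)) ≤
      T a b c) X ⊆ Points S (fun a b c => -η * Real.sqrt (Real.log (c : ℝ)) -
        0 / Real.sqrt (Real.log (c : ℝ)) ≤ T a b c) X := by
    rintro z ⟨g1, a, b, c, g4, g5, g6, g7, g8, g9, g10⟩
    refine ⟨g1, a, b, c, g4, g5, g6, g7, g8, g9, ?_⟩
    change -((D : ℝ) / d - 1 - δ) * Real.sqrt (Real.log (c : ℝ)) ≤ T a b c at g10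
    change -η * Real.sqrt (Real.log (c : ℝ)) - 0 / Real.sqrt (Real.log (c : ℝ)) ≤ T a b c
    rw [zero_div, sub_zero]
    refine le_trans ?_ g10
    have hs : 0 ≤ Real.sqrt (Real.log (c : ℝ)) := Real.sqrt_nonneg _
    have : -η ≤ -((D : ℝ) / d - 1 - δ) := by rw [hη]; linarith
    exact mul_le_mul_of_nonneg_right this hs
  exact_mod_cast Set.ncard_le_ncard h9 (points_finite h hd _ X)

theorem part_four {D d : ℕ} (hd : 1 ≤ d) {S : Forms D} (h : S.IsIdentity d) (hD : d + 2 ≤ D)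
    (ε : ℝ) (hε : 0 < ε) : ∃ C : ℝ, ∀ X : ℝ, 1 ≤ X →
      ((Points S (fun a b c => (rad (a * b * c) : ℝ) ≤
        (c : ℝ) ^ (1 - 1 / Real.sqrt (Real.log (c : ℝ)))) X).ncard : ℝ) ≤
      C * X ^ (w d / d + ε) := by
  have hd' : (0 : ℝ) < d := by exact_mod_cast hd
  have hD' : (0 : ℝ) < D := by exact_mod_cast (by omega : 0 < D)
  obtain ⟨C, hC0, hC⟩ := count_pts h hd (by omega) one_pos one_pos (show 0 < d * ε by positivity)
  have hl : 0 < 3 * ((d : ℝ) * 1) / (D : ℝ) := by positivity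
  have hf : 0 < f (3 * ((d : ℝ) * 1) / (D : ℝ)) := f_pos hl
  refine ⟨C * (2 * (S.KK d : ℝ) ^ (1 / (d : ℝ))) ^ (f (3 * ((d : ℝ) * 1) / (D : ℝ)) + d * ε),
    fun X hX => ?_⟩
  have h1 := upper h hd (P := fun a b c => (rad (a * b * c) : ℝ) ≤
        (c : ℝ) ^ (1 - 1 / Real.sqrt (Real.log (c : ℝ)))) (E := 1) (μ := 1)
    (by
      intro a b c ha hb hc hr
      have hc1 : (1 : ℝ) ≤ (c : ℝ) := by exact_mod_cast (by omega : 1 ≤ c)
      refine hr.trans ?_
      rw [one_mul]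
      refine Real.rpow_le_rpow_of_exponent_le hc1 ?_
      have : 0 ≤ 1 / Real.sqrt (Real.log (c : ℝ)) := by positivity
      linarith)
    (θ := f (3 * ((d : ℝ) * 1) / (D : ℝ)) + d * ε) (by positivity) hC0.le hC X hX
  refine h1.trans (mul_le_mul_of_nonneg_left
    (Real.rpow_le_rpow_of_exponent_le hX ?_) (by positivity))
  have h2 : f (3 * ((d : ℝ) * 1) / (D : ℝ)) ≤ w d := Fx_le_w hd hD
  calc (f (3 * ((d : ℝ) * 1) / (D : ℝ)) + d * ε) / (d : ℝ) =
        f (3 * ((d : ℝ) * 1) / (D : ℝ)) / d + ε := by field_simp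
    _ ≤ w d / d + ε := by gcongr

theorem part_one {D d : ℕ} (hd : 1 ≤ d) {S : Forms D} (h : S.IsIdentity d) :
    ∃ K : ℝ, ∀ (x y : ℤ) (a b c : ℕ), IsCoprime x y → 0 < a → 0 < b → a + b = c →
      S.Member x y a b c → -((D : ℝ) / d - 1) * Real.sqrt (Real.log (c : ℝ)) -
        K / Real.sqrt (Real.log (c : ℝ)) ≤ T a b c := by
  obtain ⟨R, hR, hrad⟩ := rad_triv h hd
  refine ⟨Real.log R, fun x y a b c hxy ha hb hc hm => (T_iff ha hb hc _ _).2 ?_⟩
  rw [Real.exp_log hR, show 1 + ((D : ℝ) / d - 1) = (D : ℝ) / d by ring]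
  exact hrad x y a b c hxy ha hb hc hm

/-- **Families of abc-triples from identities.** There are identities of the degrees `1, 2, 3, 4` with
`3, 4, 5, 6` linear forms, for instance `(x - y) (x + y) ^ 3 + y ^ 3 (2 x + y) = x ^ 3 (x + 2 y)`. For
all `d ≥ 1` and all identities `S` of degree `d` with `D` linear forms
(1) `D ≥ d + 2`;
(2) there are only finitely many points with `c ≤ X`, and at least `c₀ X ^ (2 / d)`, `c₀ > 0`, if `X`
is large;
(3) all the abc-triples satisfy `T ≥ -(D / d - 1) √(log c) - K / √(log c)` with a constant `K`;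
(4) for every `δ > 0` at most `C X ^ (2 / d - ν)` points with `c ≤ X`, `ν > 0`, have an abc-triple with
`T ≥ -(D / d - 1 - δ) √(log c)`;
(5) for all `η > -1`, `K` and `ε > 0` at most `C X ^ (f (3 d (1 + η) / D) / d + ε)` of them have an
abc-triple with `T ≥ -η √(log c) - K / √(log c)`;
(6) at most `C X ^ (w d / d + ε)` of them have an abc-triple which violates
`rad (abc) > c ^ (1 - 1 / √(log c))`, where `w d = 15 / 28, 5 / 6, 1` for `d = 1, 2, 3` and
`w d = 2 - 6 / (d + 2)` for `d ≥ 4`. -/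
theorem result :
    ((∃ S : Forms 3, S.IsIdentity 1) ∧ (∃ S : Forms 4, S.IsIdentity 2) ∧
      (∃ S : Forms 5, S.IsIdentity 3) ∧ ∃ S : Forms 6, S.IsIdentity 4) ∧
    ∀ (D d : ℕ) (S : Forms D), 1 ≤ d → S.IsIdentity d →
      d + 2 ≤ D ∧
      ((∀ (P : ℕ → ℕ → ℕ → Prop) (X : ℝ), (Points S P X).Finite) ∧
        ∃ c₀ X₀ : ℝ, 0 < c₀ ∧ ∀ X : ℝ, X₀ ≤ X →
          c₀ * X ^ (2 / (d : ℝ)) ≤ ((Points S (fun _ _ _ => True) X).ncard : ℝ)) ∧
      (∃ K : ℝ, ∀ (x y : ℤ) (a b c : ℕ), IsCoprime x y → 0 < a → 0 < b → a + b = c →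
        S.Member x y a b c → -((D : ℝ) / d - 1) * Real.sqrt (Real.log (c : ℝ)) -
          K / Real.sqrt (Real.log (c : ℝ)) ≤ T a b c) ∧
      (∀ δ : ℝ, 0 < δ → ∃ ν C : ℝ, 0 < ν ∧ ∀ X : ℝ, 1 ≤ X →
        ((Points S (fun a b c => -((D : ℝ) / d - 1 - δ) * Real.sqrt (Real.log (c : ℝ)) ≤
          T a b c) X).ncard : ℝ) ≤ C * X ^ (2 / (d : ℝ) - ν)) ∧
      (∀ η K ε : ℝ, -1 < η → 0 < ε → ∃ C : ℝ, ∀ X : ℝ, 1 ≤ X →
        ((Points S (fun a b c => -η * Real.sqrt (Real.log (c : ℝ)) -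
          K / Real.sqrt (Real.log (c : ℝ)) ≤ T a b c) X).ncard : ℝ) ≤
        C * X ^ (f (3 * (d : ℝ) * (1 + η) / (D : ℝ)) / d + ε)) ∧
      ∀ ε : ℝ, 0 < ε → ∃ C : ℝ, ∀ X : ℝ, 1 ≤ X →
        ((Points S (fun a b c => (rad (a * b * c) : ℝ) ≤
          (c : ℝ) ^ (1 - 1 / Real.sqrt (Real.log (c : ℝ)))) X).ncard : ℝ) ≤
        C * X ^ (w d / d + ε) := by
  refine ⟨⟨⟨_, id1⟩, ⟨_, id2⟩, ⟨_, id3⟩, ⟨_, id4⟩⟩, fun D d S hd h => ?_⟩
  have hD := mason hd h
  exact ⟨hD, ⟨fun P X => points_finite h hd P X, lower h hd (by omega)⟩, part_one hd h,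
    fun δ hδ => part_three hd h hD δ hδ,
    fun η K ε hη hε => part_two hd h hD η K ε hη hε, fun ε hε => part_four hd h hD ε hε⟩

end Pool.Agent.Results.MP_4ab349_nt.SplitFamilies
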